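import Pool.Agent.H79.TD.Stm2

/-!
# Project EX (helper79), module BIN (helper27)
-/

set_option autoImplicit false

open MvPolynomial Module Pool.Agent.H77.TF

namespace Pool.Agent.H27.TD

open Pool.Agent.H79.TD

variable {K : Type} [Field K]

theorem lin_hom {l : ℕ} (a : Fin l → K) : (lin a).IsHomogeneous 1 := by
  unfold lin
  refine IsHomogeneous.sum _ _ _ fun i _ => ?_
  simpa using (isHomogeneous_C (Fin l) (a i)).mul (isHomogeneous_X K i)

/-- powers of different linear forms are relatively prime -/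
theorem relPow (hP : S_PRI) {l : ℕ} {κ : Type} {b : κ → Fin l → K} (hb : Simple b) (μ : κ → ℕ)
    {i j : κ} (hij : i ≠ j) : IsRelPrime (lin (b i) ^ μ i) (lin (b j) ^ μ j) := by
  have h1 := hP K l (b i) (hb.1 i)
  refine IsRelPrime.pow ?_
  rw [h1.1.irreducible.isRelPrime_iff_not_dvd]
  intro h
  obtain ⟨c, hc⟩ := h1.2 _ h
  exact hb.2 j i (Ne.symm hij) c hc

/-- the degree of a product of powers of different linear forms which divides a form -/
theorem deg_le (hP : S_PRI) {l : ℕ} {κ : Type} {b : κ → Fin l → K} (hb : Simple b)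
    (μ : κ → ℕ) (s : Finset κ) {f : MvPolynomial (Fin l) K} {d : ℕ} (hf : f.IsHomogeneous d)
    (hf0 : f ≠ 0) (h : ∀ k ∈ s, lin (b k) ^ μ k ∣ f) : ∑ k ∈ s, μ k ≤ d := by
  classical
  have h1 : ∏ k ∈ s, lin (b k) ^ μ k ∣ f :=
    Finset.prod_dvd_of_isRelPrime (fun i _ j _ hij => relPow hP hb μ hij) h
  obtain ⟨g, hg⟩ := h1
  have hp0 : (∏ k ∈ s, lin (b k) ^ μ k) ≠ 0 := fun h0 => hf0 (by rw [hg, h0, zero_mul])
  have hg0 : g ≠ 0 := fun h0 => hf0 (by rw [hg, h0, mul_zero])
  have hph : (∏ k ∈ s, lin (b k) ^ μ k).IsHomogeneous (∑ k ∈ s, μ k) := by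
    refine IsHomogeneous.prod _ _ _ fun k _ => ?_
    simpa using (lin_hom (b k)).pow (μ k)
  have h2 := hf.totalDegree hf0
  rw [hg, totalDegree_mul_of_isDomain hp0 hg0, hph.totalDegree hp0] at h2
  omega

theorem dvd_pderiv {f p : MvPolynomial (Fin 2) K} {m : ℕ} (h : p ^ m ∣ f) (i : Fin 2) :
    p ^ (m - 1) ∣ pderiv i f := by
  obtain ⟨g, rfl⟩ := h
  rw [Derivation.leibniz, Derivation.leibniz_pow]
  refine dvd_add ?_ ?_
  · rw [smul_eq_mul]
    exact Dvd.dvd.mul_right (pow_dvd_pow _ (Nat.sub_le _ _)) _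
  · simp only [smul_eq_mul, nsmul_eq_mul]
    exact ⟨g * (m * pderiv i p), by ring⟩

theorem evl2 (a : Fin 2 → K) (v : Fin 2 → MvPolynomial (Fin 2) K) :
    evl a v = C (a 0) * v 0 + C (a 1) * v 1 := by
  simp [evl, Fin.sum_univ_two]

theorem lin2 (a : Fin 2 → K) : lin a = C (a 0) * X 0 + C (a 1) * X 1 := by
  simp [lin, Fin.sum_univ_two]

theorem t_BIN (hJ : S_JAC) (hP : S_PRI) : S_BIN := by
  classical
  intro K _ κ _ b μ e v hb hchar hv hne hμ hdiv h3 h1
  set R : MvPolynomial (Fin 2) K := X 0 * v 1 - X 1 * v 0 with hR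
  set J : MvPolynomial (Fin 2) K := pderiv 0 (v 0) * pderiv 1 (v 1) - pderiv 1 (v 0) * pderiv 0 (v 1)
    with hJd
  have hR0 : R ≠ 0 := sub_ne_zero.2 hne
  have hcase : ∀ k, b k 0 ≠ 0 ∨ b k 1 ≠ 0 := by
    intro k
    by_contra h
    push Not at h
    refine hb.1 k (funext fun i => ?_)
    fin_cases i
    · exact h.1
    · exact h.2
  have hun : ∀ c : K, c ≠ 0 → IsUnit (C c : MvPolynomial (Fin 2) K) := fun c hc =>
    (isUnit_iff_ne_zero.2 hc).map C
  have hlinR : ∀ k, lin (b k) ∣ R := by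
    intro k
    have h4 : lin (b k) ∣ evl (b k) v :=
      (dvd_pow_self _ (by have := hμ k; omega)).trans (hdiv k)
    have e1 : C (b k 1) * R = X 0 * evl (b k) v - v 0 * lin (b k) := by
      rw [hR, evl2, lin2]; ring
    have e0 : C (b k 0) * R = v 1 * lin (b k) - X 1 * evl (b k) v := by
      rw [hR, evl2, lin2]; ring
    rcases hcase k with h5 | h5
    · refine ((hun _ h5).dvd_mul_left).1 (e0 ▸ ?_)
      exact dvd_sub (dvd_mul_left _ _) (Dvd.dvd.mul_left h4 _)
    · refine ((hun _ h5).dvd_mul_left).1 (e1 ▸ ?_)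
      exact dvd_sub (Dvd.dvd.mul_left h4 _) (dvd_mul_left _ _)
  have hlinJ : ∀ k, lin (b k) ^ (μ k - 1) ∣ J := by
    intro k
    have hd := fun i => dvd_pderiv (hdiv k) i
    have hev : ∀ i, pderiv i (evl (b k) v) = C (b k 0) * pderiv i (v 0) + C (b k 1) * pderiv i (v 1) := by
      intro i
      rw [evl2, map_add, pderiv_C_mul, pderiv_C_mul]
    have e0 : C (b k 0) * J = pderiv 0 (evl (b k) v) * pderiv 1 (v 1) -
        pderiv 1 (evl (b k) v) * pderiv 0 (v 1) := by
      rw [hJd, hev, hev]; ring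
    have e1 : C (b k 1) * J = pderiv 0 (v 0) * pderiv 1 (evl (b k) v) -
        pderiv 1 (v 0) * pderiv 0 (evl (b k) v) := by
      rw [hJd, hev, hev]; ring
    rcases hcase k with h5 | h5
    · refine ((hun _ h5).dvd_mul_left).1 (e0 ▸ ?_)
      exact dvd_sub (Dvd.dvd.mul_right (hd 0) _) (Dvd.dvd.mul_right (hd 1) _)
    · refine ((hun _ h5).dvd_mul_left).1 (e1 ▸ ?_)
      exact dvd_sub (Dvd.dvd.mul_left (hd 1) _) (Dvd.dvd.mul_left (hd 0) _)
  -- the Jacobian determinant is zero
  have hJ0 : J = 0 := by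
    by_contra hJ0
    rcases Nat.eq_zero_or_pos e with he | he
    · apply hJ0
      have h4 : ∀ i j, pderiv j (v i) = 0 := by
        intro i j
        have h5 := hv i
        rw [he] at h5
        have h6 : (v i).totalDegree = 0 := by
          rcases eq_or_ne (v i) 0 with h7 | h7
          · rw [h7, totalDegree_zero]
          · exact h5.totalDegree h7
        rw [totalDegree_eq_zero_iff_eq_C] at h6
        rw [h6, pderiv_C]
      rw [hJd, h4, h4, h4, h4]
      ring
    · have hRh : R.IsHomogeneous (e + 1) := by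
        have h5 := (isHomogeneous_X K (0 : Fin 2)).mul (hv 1)
        have h6 := (isHomogeneous_X K (1 : Fin 2)).mul (hv 0)
        rw [Nat.add_comm 1 e] at h5 h6
        exact h5.sub h6
      have hp : ∀ i j, (pderiv j (v i)).IsHomogeneous (e - 1) := fun i j => (hv i).pderiv
      have hJh : J.IsHomogeneous ((e - 1) + (e - 1)) :=
        ((hp 0 0).mul (hp 1 1)).sub ((hp 0 1).mul (hp 1 0))
      have h4 := deg_le hP hb μ Finset.univ (hRh.mul hJh) (mul_ne_zero hR0 hJ0) (fun k _ => by
        have h5 : lin (b k) ^ μ k = lin (b k) * lin (b k) ^ (μ k - 1) := by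
          rw [← pow_succ']
          congr 1
          have := hμ k
          omega
        rw [h5]
        exact mul_dvd_mul (hlinR k) (hlinJ k))
      omega
  obtain ⟨c, hc0, hc⟩ := hJ K e v hchar hv (sub_eq_zero.1 hJ0)
  rw [evl2] at hc
  -- the form `ψ`
  obtain ⟨ψ, hψh, hψ0, hψ1⟩ : ∃ ψ : MvPolynomial (Fin 2) K, ψ.IsHomogeneous e ∧
      v 0 = - (C (c 1) * ψ) ∧ v 1 = C (c 0) * ψ := by
    have hinv : ∀ t : K, t ≠ 0 → (C t⁻¹ : MvPolynomial (Fin 2) K) * C t = 1 := fun t ht => by
      rw [← C_mul, inv_mul_cancel₀ ht, C_1]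
    have hCh : ∀ (t : K) (f : MvPolynomial (Fin 2) K), f.IsHomogeneous e →
        (C t * f).IsHomogeneous e := fun t f hf => by
      simpa using (isHomogeneous_C (Fin 2) t).mul hf
    by_cases h0 : c 0 = 0
    · have h4 : c 1 ≠ 0 := by
        intro h5
        apply hc0
        funext i
        fin_cases i
        · exact h0
        · exact h5
      rw [h0, C_0, zero_mul, zero_add] at hc
      have h5 : v 1 = 0 := by
        rcases mul_eq_zero.1 hc with h6 | h6
        · exact absurd (C_eq_zero.1 h6) h4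
        · exact h6
      refine ⟨- (C (c 1)⁻¹ * v 0), (hCh _ _ (hv 0)).neg, ?_, ?_⟩
      · calc v 0 = (C (c 1)⁻¹ * C (c 1)) * v 0 := by rw [hinv _ h4, one_mul]
          _ = _ := by ring
      · rw [h5, h0, C_0, zero_mul]
    · refine ⟨C (c 0)⁻¹ * v 1, hCh _ _ (hv 1), ?_, ?_⟩
      · calc v 0 = (C (c 0)⁻¹ * C (c 0)) * v 0 := by rw [hinv _ h0, one_mul]
          _ = C (c 0)⁻¹ * (C (c 0) * v 0) := by ring
          _ = C (c 0)⁻¹ * (- (C (c 1) * v 1)) := by
              congr 1
              linear_combination hc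
          _ = _ := by ring
      · calc v 1 = (C (c 0)⁻¹ * C (c 0)) * v 1 := by rw [hinv _ h0, one_mul]
          _ = _ := by ring
  have hψne : ψ ≠ 0 := by
    rintro rfl
    apply hR0
    rw [hR, hψ0, hψ1]
    ring
  have hev : ∀ k, evl (b k) v = C (b k 1 * c 0 - b k 0 * c 1) * ψ := by
    intro k
    rw [evl2, hψ0, hψ1, C_sub, C_mul, C_mul]
    ring
  set s : Finset κ := Finset.univ.filter fun k => b k 1 * c 0 - b k 0 * c 1 ≠ 0 with hs
  have hsum : ∑ k ∈ s, μ k ≤ e := deg_le hP hb μ s hψh hψne fun k hk => by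
    have h4 := (Finset.mem_filter.1 hk).2
    have h5 := hdiv k
    rw [hev] at h5
    exact ((hun _ h4).dvd_mul_left).1 h5
  -- at most one class is outside `s`
  have hone : ∀ k l, k ∉ s → l ∉ s → k = l := by
    intro k l hk hl
    by_contra hkl
    simp only [hs, Finset.mem_filter, Finset.mem_univ, true_and, not_not] at hk hl
    have hprop : ∀ k, b k 1 * c 0 - b k 0 * c 1 = 0 → ∃ t : K, b k = t • c := by
      intro k hk
      by_cases h0 : c 0 = 0
      · have h4 : c 1 ≠ 0 := by
          intro h5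
          apply hc0
          funext i
          fin_cases i
          · exact h0
          · exact h5
        refine ⟨b k 1 / c 1, funext fun i => ?_⟩
        fin_cases i
        · rw [h0, mul_zero, zero_sub, neg_eq_zero] at hk
          have h5 : b k 0 = 0 := (mul_eq_zero.1 hk).resolve_right h4
          simp [h5, h0]
        · simp [h4]
      · refine ⟨b k 0 / c 0, funext fun i => ?_⟩
        fin_cases i
        · simp [h0]
        · simp only [Fin.mk_one, Pi.smul_apply, smul_eq_mul]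
          field_simp
          linear_combination hk
    obtain ⟨t, ht⟩ := hprop k hk
    obtain ⟨u, hu⟩ := hprop l hl
    have hu0 : u ≠ 0 := by
      rintro rfl
      exact hb.1 l (by rw [hu, zero_smul])
    refine hb.2 k l hkl (t * u⁻¹) ?_
    rw [ht, hu, smul_smul, mul_assoc, inv_mul_cancel₀ hu0, mul_one]
  have hκ : Nonempty κ := by
    by_contra h
    rw [not_nonempty_iff] at h
    simp at h1
  by_cases hall : ∀ k, k ∈ s
  · obtain ⟨k₀⟩ := hκ
    refine ⟨k₀, ?_⟩
    have h4 : s = Finset.univ := Finset.eq_univ_of_forall hall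
    rw [h4] at hsum
    omega
  · push Not at hall
    obtain ⟨k₀, hk₀⟩ := hall
    refine ⟨k₀, ?_⟩
    have h4 : (Finset.univ : Finset κ) = insert k₀ s := by
      ext k
      simp only [Finset.mem_univ, Finset.mem_insert, true_iff]
      by_cases h5 : k ∈ s
      · exact Or.inr h5
      · exact Or.inl (hone k k₀ h5 hk₀)
    rw [h4, Finset.sum_insert hk₀]
    omega

end Pool.Agent.H27.TD
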