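import Pool.Agent.H27.TD.Rep

/-!
# Project TD (helper79), module DU3 (helper27)
-/

set_option autoImplicit false

open MvPolynomial Module

namespace Pool.Agent.H27.TD

open Pool.Agent.H77.TF Pool.Agent.H79.TD Pool.Agent.H27.TF

/-- the evaluation of the forms of degree `e` at the representatives -/
noncomputable def ev {K : Type} [Field K] (R : Finset (Fin 3 → K)) (e : ℕ) :
    homogeneousSubmodule (Fin 3) K e →ₗ[K] (R → K) where
  toFun f r := eval r.1 f.1
  map_add' f g := by
    funext r
    simp
  map_smul' c f := by
    funext r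
    simp [smul_eval]

theorem ker_ev {K : Type} [Field K] [Fintype K] {ν : Type} [Nonempty ν] {A : ν → Fin 3 → K}
    {R : Finset (Fin 3 → K)} (hR : IsRep A R) (e : ℕ) :
    finrank K (LinearMap.ker (ev R e)) = finrank K (VD A e) := by
  have h1 : (LinearMap.ker (ev R e)).map (homogeneousSubmodule (Fin 3) K e).subtype = VD A e := by
    ext f
    constructor
    · rintro ⟨g, hg, rfl⟩
      refine ⟨g.2, fun x hx => ?_⟩
      obtain ⟨r, hr, c, -, rfl⟩ := hR.2.1 x hx
      have h2 : ev R e g = 0 := hg
      have h3 : eval r g.1 = 0 := congrFun h2 ⟨r, hr⟩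
      change eval (c • r) g.1 = 0
      rw [hom_eval ((mem_homogeneousSubmodule _ _).1 g.2), h3, mul_zero]
    · rintro ⟨hf, hf'⟩
      refine ⟨⟨f, (mem_homogeneousSubmodule _ _).2 hf⟩, ?_, rfl⟩
      change ev R e _ = 0
      funext r
      exact hf' r.1 (hR.1 r.1 r.2)
  rw [← h1]
  exact (Submodule.finrank_map_subtype_eq _ _).symm

theorem t_DU3 (hDIM : S_DIM) : S_DU3 := by
  classical
  intro K _ _ ν _ _ A e
  obtain ⟨R, hRc, hR⟩ := t_REP K ν A
  have hrk : ∀ e, finrank K (LinearMap.range (ev R e)) + finrank K (VD A e) =
      (e + 2).choose 2 := by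
    intro e
    obtain ⟨hfin, hdim⟩ := hDIM K e
    rw [← ker_ev hR e, ← hdim]
    exact LinearMap.finrank_range_add_finrank_ker (ev R e)
  have hcard : finrank K (R → K) = uncD A := by
    rw [finrank_fintype_fun_eq_card, Fintype.card_coe, hRc]
  refine ⟨?_, fun e' he => ?_⟩
  · have h1 := hrk e
    have h2 := Submodule.finrank_le (LinearMap.range (ev R e))
    omega
  · have hQ : ∀ r : R, eval r.1 (∏ i, lin (A i)) ≠ 0 := by
      intro r
      rw [map_prod]
      refine Finset.prod_ne_zero_iff.2 fun i _ => ?_
      have h1 := mem_Pts.1 (hR.1 r.1 r.2) i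
      intro h2
      refine h1 (Eq.trans ?_ h2)
      simp [lin, dotProduct]
    have hQ0 : ∀ x, x ∉ Pts A → eval x (∏ i, lin (A i)) = 0 := by
      intro x hx
      rw [mem_Pts] at hx
      push Not at hx
      obtain ⟨i, hi⟩ := hx
      rw [map_prod]
      refine Finset.prod_eq_zero (Finset.mem_univ i) ?_
      refine Eq.trans ?_ hi
      simp [lin, dotProduct]
    have hQh : (∏ i, lin (A i)).IsHomogeneous (Fintype.card ν) := by
      have h1 := IsHomogeneous.prod Finset.univ (fun i => lin (A i)) (fun _ => 1) fun i _ => by
        unfold lin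
        exact IsHomogeneous.sum _ _ _ fun i _ => isHomogeneous_C_mul_X _ _
      simpa using h1
    let M : (R → K) →ₗ[K] (R → K) :=
      { toFun := fun y r => eval r.1 (∏ i, lin (A i)) * y r
        map_add' := fun y z => by funext r; simp [mul_add]
        map_smul' := fun c y => by
          funext r
          simp only [Pi.smul_apply, smul_eq_mul, RingHom.id_apply]
          ring }
    have hM : Function.Injective M := by
      intro y z h
      funext r
      exact mul_left_cancel₀ (hQ r) (congrFun h r)
    have hle : ((LinearMap.range (ev R e')).map M).map (dotProductEquiv K R).toLinearMap ≤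
        (LinearMap.range (ev R e)).dualAnnihilator := by
      rintro _ ⟨_, ⟨_, ⟨h, rfl⟩, rfl⟩, rfl⟩
      rw [Submodule.mem_dualAnnihilator]
      rintro _ ⟨g, rfl⟩
      change (M (ev R e' h)) ⬝ᵥ (ev R e g) = 0
      have h1 := t_SUM K ν A R hR (g.1 * ((∏ i, lin (A i)) * h.1)) (by
        have h2 := ((mem_homogeneousSubmodule _ _).1 g.2).mul
          (hQh.mul ((mem_homogeneousSubmodule _ _).1 h.2))
        have h3 : e + (Fintype.card ν + e') = 2 * (Fintype.card K - 1) := by
          have := Fintype.one_lt_card (α := K)
          omega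
        rwa [h3] at h2) (fun x hx => by
          rw [map_mul, map_mul, hQ0 x hx, zero_mul, mul_zero])
      rw [← Finset.sum_coe_sort] at h1
      refine Eq.trans (Finset.sum_congr rfl fun r _ => ?_) h1
      change eval r.1 (∏ i, lin (A i)) * eval r.1 h.1 * eval r.1 g.1 = _
      rw [map_mul, map_mul]
      ring
    have h1 := Submodule.finrank_mono hle
    have h2 : finrank K (((LinearMap.range (ev R e')).map M).map
        (dotProductEquiv K R).toLinearMap) = finrank K (LinearMap.range (ev R e')) := by
      have h3 := LinearEquiv.finrank_map_eq (dotProductEquiv K R)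
        ((LinearMap.range (ev R e')).map M)
      exact h3.trans (LinearEquiv.finrank_eq
        (Submodule.equivMapOfInjective M hM (LinearMap.range (ev R e')))).symm
    have h3 := Subspace.finrank_add_finrank_dualAnnihilator_eq (LinearMap.range (ev R e))
    have h4 := hrk e
    have h5 := hrk e'
    omega

end Pool.Agent.H27.TD
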