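import Pool.Agent.H27.TF.Pl3
import Pool.Agent.H79.TD.Stm

/-!
# Project TD (helper79), modules REP and SUM (helper27)
-/

set_option autoImplicit false

open MvPolynomial Module

namespace Pool.Agent.H27.TD

open Pool.Agent.H77.TF Pool.Agent.H79.TD Pool.Agent.H27.TF

/-- the value of a form at a multiple of a vector -/
theorem hom_eval {K : Type} [Field K] {l d : ℕ} {F : MvPolynomial (Fin l) K}
    (hF : F.IsHomogeneous d) (c : K) (x : Fin l → K) : eval (c • x) F = c ^ d * eval x F := by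
  rw [eval_eq', eval_eq', Finset.mul_sum]
  refine Finset.sum_congr rfl fun e he => ?_
  have h1 : e.degree = d := by
    by_contra h
    exact (mem_support_iff.1 he) (hF.coeff_eq_zero h)
  have h2 : ∏ i, (c • x) i ^ e i = c ^ d * ∏ i, x i ^ e i := by
    have h3 : ∏ i, (c • x) i ^ e i = ∏ i, (c ^ e i * x i ^ e i) :=
      Finset.prod_congr rfl fun i _ => by rw [Pi.smul_apply, smul_eq_mul, mul_pow]
    rw [h3, Finset.prod_mul_distrib, Finset.prod_pow_eq_pow_sum, ← h1, Finsupp.degree_eq_sum]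
  rw [h2]
  ring

theorem mem_Pts {K : Type} [Field K] {ν : Type} {A : ν → Fin 3 → K} {x : Fin 3 → K} :
    x ∈ Pts A ↔ ∀ i, A i ⬝ᵥ x ≠ 0 := Iff.rfl

theorem ne_zero_of_Pts {K : Type} [Field K] {ν : Type} [Nonempty ν] {A : ν → Fin 3 → K}
    {x : Fin 3 → K} (hx : x ∈ Pts A) : x ≠ 0 := by
  rintro rfl
  obtain ⟨i⟩ := ‹Nonempty ν›
  exact mem_Pts.1 hx i (dotProduct_zero _)

/-- two normal vectors of the same plane are proportional -/
theorem prop_of {K : Type} [Field K] {p p' : Fin 3 → K} (hp : p ≠ 0)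
    (h : ∀ a : Fin 3 → K, a ⬝ᵥ p' = 0 → a ⬝ᵥ p = 0) : ∃ c : K, c ≠ 0 ∧ p = c • p' := by
  classical
  have hp' : p' ≠ 0 := by
    rintro rfl
    refine hp (funext fun i => ?_)
    have h1 := h (Pi.single i 1) (dotProduct_zero _)
    rwa [single_dotProduct, one_mul] at h1
  obtain ⟨m, hm⟩ := Function.ne_iff.1 hp'
  rw [Pi.zero_apply] at hm
  have h5 : ∀ i, p' m * p i = p' i * p m := by
    intro i
    have h6 := h (p' m • Pi.single i 1 - p' i • Pi.single m 1) (by
      rw [sub_dotProduct, smul_dotProduct, smul_dotProduct, single_dotProduct,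
        single_dotProduct, smul_eq_mul, smul_eq_mul]
      ring)
    rw [sub_dotProduct, smul_dotProduct, smul_dotProduct, single_dotProduct,
      single_dotProduct, smul_eq_mul, smul_eq_mul] at h6
    linear_combination h6
  have h7 : p m ≠ 0 := by
    intro h
    refine hp (funext fun i => ?_)
    have h8 := h5 i
    rw [h, mul_zero] at h8
    exact (mul_eq_zero.1 h8).resolve_left hm
  refine ⟨p m / p' m, div_ne_zero h7 hm, ?_⟩
  funext i
  rw [Pi.smul_apply, smul_eq_mul]
  field_simp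
  linear_combination h5 i

theorem t_REP : S_REP := by
  classical
  intro K _ _ ν _ _ A
  have : Finite (Submodule K (Fin 3 → K)) :=
    Finite.of_injective (fun W : Submodule K (Fin 3 → K) => (W : Set (Fin 3 → K)))
      SetLike.coe_injective
  let T := {W : Submodule K (Fin 3 → K) // finrank K W = 2 ∧ ∀ i, A i ∉ W}
  letI : Fintype T := Fintype.ofFinite T
  have hex : ∀ W : T, ∃ p : Fin 3 → K, p ≠ 0 ∧ ∀ a, a ∈ W.1 ↔ a ⬝ᵥ p = 0 :=
    fun W => exists_normal W.1 W.2.1
  choose p hp0 hp using hex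
  have hinj : Function.Injective p := by
    intro W W' h
    refine Subtype.ext (Submodule.ext fun a => ?_)
    rw [hp, hp, h]
  refine ⟨Finset.univ.image p, ?_, ?_, ?_, ?_⟩
  · rw [Finset.card_image_of_injective _ hinj, Finset.card_univ]
    exact Nat.card_eq_fintype_card.symm
  · intro x hx
    rw [Finset.mem_image] at hx
    obtain ⟨W, -, rfl⟩ := hx
    exact mem_Pts.2 fun i h => W.2.2 i ((hp W _).2 h)
  · intro x hx
    obtain ⟨W, hW, hWx⟩ := exists_plane x (ne_zero_of_Pts hx)
    let W' : T := ⟨W, hW, fun i h => mem_Pts.1 hx i ((hWx _).1 h)⟩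
    obtain ⟨c, hc, hxc⟩ := prop_of (ne_zero_of_Pts hx) (p' := p W') fun a ha =>
      (hWx a).1 ((hp W' a).2 ha)
    exact ⟨p W', Finset.mem_image_of_mem _ (Finset.mem_univ _), c, hc, hxc⟩
  · intro r hr s hs c hrs
    rw [Finset.mem_image] at hr hs
    obtain ⟨W, -, rfl⟩ := hr
    obtain ⟨W', -, rfl⟩ := hs
    have hc : c ≠ 0 := by
      rintro rfl
      rw [zero_smul] at hrs
      exact hp0 W hrs
    have hWW : W = W' := by
      refine Subtype.ext (Submodule.ext fun a => ?_)
      rw [hp, hp, hrs, dotProduct_smul, smul_eq_mul, mul_eq_zero]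
      exact ⟨fun h => h.resolve_left hc, Or.inr⟩
    rw [hWW]

theorem t_SUM : S_SUM := by
  classical
  intro K _ _ ν _ _ A R hR F hF hF0
  have hq := Fintype.one_lt_card (α := K)
  obtain ⟨hR1, hR2, hR3⟩ := hR
  have hsum := MvPolynomial.sum_eval_eq_zero F (lt_of_le_of_lt hF.totalDegree_le (by
    rw [Fintype.card_fin]
    omega))
  let S : Finset (Fin 3 → K) := (R ×ˢ (Finset.univ : Finset Kˣ)).image
    (fun y => (y.2 : K) • y.1)
  have h1 : ∑ x ∈ S, eval x F = ∑ x, eval x F := by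
    refine Finset.sum_subset (Finset.subset_univ _) fun x _ hx => ?_
    refine hF0 x fun hxP => hx ?_
    obtain ⟨r, hr, c, hc, rfl⟩ := hR2 x hxP
    exact Finset.mem_image.2 ⟨(r, Units.mk0 c hc), Finset.mem_product.2
      ⟨hr, Finset.mem_univ _⟩, rfl⟩
  have h2 : ∑ x ∈ S, eval x F =
      ∑ y ∈ R ×ˢ (Finset.univ : Finset Kˣ), eval ((y.2 : K) • y.1) F := by
    refine Finset.sum_image ?_
    rintro ⟨r, c⟩ hy ⟨s, d⟩ hz h
    have hy1 := (Finset.mem_product.1 hy).1
    have hz1 := (Finset.mem_product.1 hz).1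
    simp only [] at h hy1 hz1
    have hrs : r = ((c : K)⁻¹ * (d : K)) • s := by
      rw [mul_smul, ← h, smul_smul, inv_mul_cancel₀ c.ne_zero, one_smul]
    have hrs' := hR3 r hy1 s hz1 _ hrs
    subst hrs'
    obtain ⟨m, hm⟩ := Function.ne_iff.1 (ne_zero_of_Pts (hR1 r hy1))
    have h4 := congrFun h m
    rw [Pi.smul_apply, Pi.smul_apply, smul_eq_mul, smul_eq_mul] at h4
    rw [Units.ext (mul_right_cancel₀ hm h4)]
  rw [h2, hsum, Finset.sum_product] at h1
  have h3 : ∀ r ∈ R, ∑ c : Kˣ, eval ((c : K) • r) F = -eval r F := by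
    intro r _
    have h4 : ∀ c : Kˣ, eval ((c : K) • r) F = eval r F := by
      intro c
      rw [hom_eval hF, mul_comm 2, pow_mul, FiniteField.pow_card_sub_one_eq_one _ c.ne_zero,
        one_pow, one_mul]
    rw [Finset.sum_congr rfl fun c _ => h4 c, Finset.sum_const, Finset.card_univ,
      Fintype.card_units, nsmul_eq_mul, Nat.cast_sub hq.le, FiniteField.cast_card_eq_zero]
    ring
  rw [Finset.sum_congr rfl h3, Finset.sum_neg_distrib, neg_eq_zero] at h1
  exact h1

end Pool.Agent.H27.TD
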